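import Pool.Agent.Lib.MP_417c68_gt_P.B.Ext

/-!
# MP_417c68_gt, project P, module E/Lk: the link part

`Hyp S K π₁ π₂ V W`: the situation of Lemma N (text, section 4).  `E₁ = range π₁`, `E₂ = range π₂`,
`W₀ = W0 π₁ π₂ W = (W ∩ E₁) + (W ∩ E₂)`, `U = S.lk π₁ π₂ W`.

PROOFS.
* `W₀` is an ideal of `W`: for `a ∈ W ∩ E₁`, `b, c ∈ W`: `T a b c = T a (π₁ b) (π₁ c)` (write
  `b = π₁ b + π₂ b`, use `com` and `jac`) `= π₁ (T a b c)` by `hom₁`, and `T a b c ∈ W`.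
* `lk_sub`, `lk_com`: `ideal_sub`, `ideal_com`.  `lk_cen`: `W = W₀ ⊔ U` (`decomp`) and `cen_le_sup`.
* `proj_com`: for `x ∈ U`, `w ∈ W₀`: `T (π₁ x) w = 0` and `T (π₂ x) w = 0`.  Let `w ∈ W ∩ E₁`: `T
  (π₂ x) w = 0` by
  `com`, `T (π₁ x) w = T x w = 0`.
* `ff_hom`: `T (π₁ x + π₂ x') (π₁ y + π₂ y') (π₁ z + π₂ z')`; the mixed terms vanish (`com`,
  `com_T`).
* `pi1_inj`: `x ∈ U`, `π₁ x ∈ W`: then `π₁ x ∈ W ∩ E₁ ≤ W₀` and `π₂ x = x - π₁ x ∈ W ∩ E₂ ≤ W₀`, so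
  `x ∈ W₀ ∩ U = 0`.
* `ff_inj`: `π₁ x + π₂ x' ∈ W₀` gives `π₁ x = π₁ (w₁ + w₂) = w₁ ∈ W`, so `x = 0`; the same for `x'`.
-/

noncomputable section

namespace Pool.Agent.MP417P

open Module

namespace LTS

section alg

variable {E : Type} [AddCommGroup E] [Module ℝ E] {S : LTS E} {π₁ π₂ : E →ₗ[ℝ] E}

theorem Dec.pi12 (h : S.Dec π₁ π₂) (x : E) : π₁ (π₂ x) = 0 := by
  have h1 := congrArg π₁ (h.add x)
  rw [map_add, h.id₁] at h1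
  exact add_eq_left.1 h1

theorem Dec.pi21 (h : S.Dec π₁ π₂) (x : E) : π₂ (π₁ x) = 0 := by
  have h1 := congrArg π₂ (h.add x)
  rw [map_add, h.id₂] at h1
  exact add_eq_right.1 h1

theorem Dec.mem₁ (h : S.Dec π₁ π₂) {x : E} : x ∈ LinearMap.range π₁ ↔ π₁ x = x := by
  constructor
  · rintro ⟨y, rfl⟩
    exact h.id₁ y
  · intro hx
    exact ⟨x, hx⟩

theorem Dec.mem₂ (h : S.Dec π₁ π₂) {x : E} : x ∈ LinearMap.range π₂ ↔ π₂ x = x := by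
  constructor
  · rintro ⟨y, rfl⟩
    exact h.id₂ y
  · intro hx
    exact ⟨x, hx⟩

theorem Dec.inf (h : S.Dec π₁ π₂) : LinearMap.range π₁ ⊓ LinearMap.range π₂ = ⊥ := by
  rw [eq_bot_iff]
  rintro x ⟨h1, h2⟩
  rw [SetLike.mem_coe, h.mem₁] at h1
  rw [SetLike.mem_coe, h.mem₂] at h2
  rw [Submodule.mem_bot, ← h1, ← h2]
  exact h.pi12 x

theorem Dec.swap (h : S.Dec π₁ π₂) : S.Dec π₂ π₁ where
  add x := by rw [add_comm, h.add]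
  id₁ := h.id₂
  id₂ := h.id₁
  com x y := S.T_symm (h.com y x)
  hom₁ := h.hom₂
  hom₂ := h.hom₁

private theorem Lk_W0_swap (W : Submodule ℝ E) : W0 π₂ π₁ W = W0 π₁ π₂ W := sup_comm _ _

private theorem Lk_lk_swap (S : LTS E) (W : Submodule ℝ E) : S.lk π₂ π₁ W = S.lk π₁ π₂ W := by
  unfold lk
  rw [Lk_W0_swap]

/-- the operators of elements of the first factor have values in the first factor -/
private theorem Lk_T1 (h : S.Dec π₁ π₂) (a b c : E) :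
    π₁ (S.T (π₁ a) b c) = S.T (π₁ a) b c := by
  have h1 : S.T (π₁ a) b = S.T (π₁ a) (π₁ b) := by
    conv_lhs => rw [← h.add b, map_add, h.com, add_zero]
  have h2 : S.T (π₁ a) (π₁ b) c = S.T (π₁ a) (π₁ b) (π₁ c) := by
    conv_lhs => rw [← h.add c, map_add, S.com_T (h.com a c) (h.com b c), add_zero]
  rw [h1, h2, h.hom₁, h.id₁, h.id₁, h.id₁]

theorem Dec.W0_le {W : Submodule ℝ E} : W0 π₁ π₂ W ≤ W := sup_le inf_le_left inf_le_left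

theorem Dec.W0_ideal (h : S.Dec π₁ π₂) {W : Submodule ℝ E} (hW : S.Sub W) :
    ∀ a ∈ W0 π₁ π₂ W, ∀ b ∈ W, ∀ c ∈ W, S.T a b c ∈ W0 π₁ π₂ W := by
  intro a ha b hb c hc
  obtain ⟨a₁, ⟨h1, h2⟩, a₂, ⟨h3, h4⟩, rfl⟩ := Submodule.mem_sup.1 ha
  rw [SetLike.mem_coe] at h1 h2 h3 h4
  rw [map_add, LinearMap.add_apply, LinearMap.add_apply]
  refine Submodule.add_mem_sup ⟨hW _ h1 _ hb _ hc, ?_⟩ ⟨hW _ h3 _ hb _ hc, ?_⟩
  · rw [SetLike.mem_coe, h.mem₁]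
    rw [← h.mem₁.1 h2]
    exact Lk_T1 h a₁ b c
  · rw [SetLike.mem_coe, h.mem₂]
    rw [← h.mem₂.1 h4]
    exact Lk_T1 h.swap a₂ b c

theorem Dec.lk_sub (h : S.Dec π₁ π₂) {W : Submodule ℝ E} (hW : S.Sub W) :
    S.Sub (S.lk π₁ π₂ W) :=
  S.ideal_sub hW Dec.W0_le (h.W0_ideal hW)

theorem Dec.lk_com (h : S.Dec π₁ π₂) {W : Submodule ℝ E} (hW : S.Sub W) {x w : E}
    (hx : x ∈ S.lk π₁ π₂ W) (hw : w ∈ W0 π₁ π₂ W) : S.T x w = 0 :=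
  S.T_symm (S.ideal_com Dec.W0_le (h.W0_ideal hW) hw hx.1 hx.2)

theorem Dec.proj_com (h : S.Dec π₁ π₂) {W : Submodule ℝ E} (hW : S.Sub W) {x w : E}
    (hx : x ∈ S.lk π₁ π₂ W) (hw : w ∈ W0 π₁ π₂ W) : S.T (π₁ x) w = 0 ∧ S.T (π₂ x) w = 0 := by
  obtain ⟨w₁, ⟨h1, h2⟩, w₂, ⟨h3, h4⟩, rfl⟩ := Submodule.mem_sup.1 hw
  rw [SetLike.mem_coe] at h1 h2 h3 h4
  have e1 : S.T x w₁ = 0 := h.lk_com hW hx (Submodule.mem_sup_left ⟨h1, h2⟩)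
  have e2 : S.T x w₂ = 0 := h.lk_com hW hx (Submodule.mem_sup_right ⟨h3, h4⟩)
  have c1 : S.T (π₁ x) w₂ = 0 := by
    rw [← h.mem₂.1 h4]
    exact h.com x w₂
  have c2 : S.T (π₂ x) w₁ = 0 := by
    rw [← h.mem₁.1 h2]
    exact h.swap.com x w₁
  have d1 : S.T (π₁ x) w₁ = 0 := by
    have e3 := e1
    rw [← h.add x, map_add, LinearMap.add_apply, c2, add_zero] at e3
    exact e3
  have d2 : S.T (π₂ x) w₂ = 0 := by
    have e3 := e2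
    rw [← h.add x, map_add, LinearMap.add_apply, c1, zero_add] at e3
    exact e3
  constructor
  · rw [map_add, d1, c1, add_zero]
  · rw [map_add, c2, d2, add_zero]

theorem Dec.ff_com (h : S.Dec π₁ π₂) {W : Submodule ℝ E} (hW : S.Sub W)
    (x : S.lk π₁ π₂ W × S.lk π₁ π₂ W) {w : E} (hw : w ∈ W0 π₁ π₂ W) :
    S.T (ff π₁ π₂ (S.lk π₁ π₂ W) x) w = 0 := by
  rw [ff_apply, map_add, LinearMap.add_apply, (h.proj_com hW x.1.2 hw).1,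
    (h.proj_com hW x.2.2 hw).2, add_zero]

theorem Dec.ff_hom (h : S.Dec π₁ π₂) {U : Submodule ℝ E} (hU : S.Sub U) :
    Hom ((S.res U hU).prod (S.res U hU)) S (ff π₁ π₂ U) := by
  intro x y z
  have h1 : S.T (π₁ x.1.1 + π₂ x.2.1) (π₁ y.1.1 + π₂ y.2.1) =
      S.T (π₁ x.1.1) (π₁ y.1.1) + S.T (π₂ x.2.1) (π₂ y.2.1) := by
    rw [map_add, map_add S.T, LinearMap.add_apply, LinearMap.add_apply, h.com, h.swap.com,
      add_zero, zero_add]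
  have h2 : S.T (π₁ x.1.1) (π₁ y.1.1) (π₂ z.2.1) = 0 := S.com_T (h.com _ _) (h.com _ _)
  have h3 : S.T (π₂ x.2.1) (π₂ y.2.1) (π₁ z.1.1) = 0 :=
    S.com_T (h.swap.com _ _) (h.swap.com _ _)
  rw [ff_apply, ff_apply, ff_apply, ff_apply, h1, LinearMap.add_apply, map_add, map_add, h2, h3,
    add_zero, zero_add, ← h.hom₁, ← h.hom₂]
  rfl

theorem Dec.ff_diag (h : S.Dec π₁ π₂) {U : Submodule ℝ E} (x : U) :
    ff π₁ π₂ U (x, x) = x.1 :=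
  h.add x.1

theorem Dec.pi1_inj (h : S.Dec π₁ π₂) {W : Submodule ℝ E} {x : E} (hx : x ∈ S.lk π₁ π₂ W)
    (h1 : π₁ x ∈ W) : x = 0 := by
  have h2 : π₂ x ∈ W := by
    have h3 : π₂ x = x - π₁ x := by
      rw [eq_sub_iff_add_eq, add_comm]
      exact h.add x
    rw [h3]
    exact W.sub_mem hx.1 h1
  have h4 : x ∈ W0 π₁ π₂ W := by
    rw [← h.add x]
    exact Submodule.add_mem_sup ⟨h1, x, rfl⟩ ⟨h2, x, rfl⟩
  exact S.ip_zero (hx.2 x h4)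

theorem Dec.pi2_inj (h : S.Dec π₁ π₂) {W : Submodule ℝ E} {x : E} (hx : x ∈ S.lk π₁ π₂ W)
    (h1 : π₂ x ∈ W) : x = 0 := by
  rw [← Lk_lk_swap] at hx
  exact h.swap.pi1_inj hx h1

theorem Dec.ff_inj (h : S.Dec π₁ π₂) {W : Submodule ℝ E} {x : S.lk π₁ π₂ W × S.lk π₁ π₂ W}
    (hx : ff π₁ π₂ (S.lk π₁ π₂ W) x ∈ W0 π₁ π₂ W) : x = 0 := by
  obtain ⟨w₁, ⟨h1, h2⟩, w₂, ⟨h3, h4⟩, h5⟩ := Submodule.mem_sup.1 hx
  rw [SetLike.mem_coe] at h1 h2 h3 h4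
  rw [ff_apply] at h5
  have h6 : π₁ x.1.1 ∈ W := by
    have h7 := congrArg π₁ h5
    rw [map_add, map_add, h.id₁, h.pi12, add_zero, h.mem₁.1 h2, ← h.mem₂.1 h4, h.pi12,
      add_zero] at h7
    rw [← h7]
    exact h1
  have h8 : π₂ x.2.1 ∈ W := by
    have h7 := congrArg π₂ h5
    rw [map_add, map_add, h.id₂, h.pi21, zero_add, h.mem₂.1 h4, ← h.mem₁.1 h2, h.pi21,
      zero_add] at h7
    rw [← h7]
    exact h3
  refine Prod.ext (Subtype.ext ?_) (Subtype.ext ?_)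
  · exact h.pi1_inj x.1.2 h6
  · exact h.pi2_inj x.2.2 h8

theorem Dec.W_eq (h : S.Dec π₁ π₂) [FiniteDimensional ℝ E] {W : Submodule ℝ E} :
    W0 π₁ π₂ W ⊔ S.lk π₁ π₂ W = W :=
  S.decomp Dec.W0_le

theorem Dec.lk_cen (h : S.Dec π₁ π₂) [FiniteDimensional ℝ E] {W : Submodule ℝ E}
    (hW : S.Sub W) (hc : S.cen W = ⊥) : S.cen (S.lk π₁ π₂ W) = ⊥ := by
  have h1 : S.cen (S.lk π₁ π₂ W) ≤ S.cen (W0 π₁ π₂ W ⊔ S.lk π₁ π₂ W) :=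
    S.cen_le_sup fun x hx y hy => S.T_symm (h.lk_com hW hy hx)
  rw [h.W_eq, hc] at h1
  exact le_bot_iff.1 h1

theorem Dec.finrank_lk (h : S.Dec π₁ π₂) [FiniteDimensional ℝ E] {W : Submodule ℝ E} :
    finrank ℝ (W0 π₁ π₂ W) + finrank ℝ (S.lk π₁ π₂ W) = finrank ℝ W :=
  S.finrank_decomp Dec.W0_le

end alg

variable {E : Type} [NormedAddCommGroup E] [NormedSpace ℝ E] [FiniteDimensional ℝ E]

/-- the situation of Lemma N -/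
structure Hyp (S : LTS E) (K : Subgroup (GLE E)) (π₁ π₂ : E →ₗ[ℝ] E) (V W : Submodule ℝ E) :
    Prop where
  dec : S.Dec π₁ π₂
  grp : S.Grp K
  hV : S.Sub V
  hW : S.Sub W
  cp : Cp K V W
  cen : S.cen W = ⊥

end LTS

end Pool.Agent.MP417P
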