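import Pool.Agent.Lib.MP_417c68_gt_P.E.Nt
import Pool.Agent.Lib.MP_417c68_gt_P.C.Zc
import Pool.Agent.Lib.MP_417c68_gt_P.D.Fam

/-!
# MP_417c68_gt, project P, module E/Nc4: all `N(k)` are conjugate

PROOF (N4).  `S' = (S.res U).prod (S.res U)` is centreless (`lk_cen`, `cen_res`, `cen_prod`). 
  `N(k)` and
the diagonal `{(x, x)}` of `U × U` are complementary for `Inn S'` (`NN_diag`, `NN_finrank`; the
  diagonal has
the dimension of `U`), so `N(k)` is centreless (`nc` for `S'`).  `conj_family` for `C = K` with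
`NN_sub`, `NN_finrank`, `NN_closed`.
-/

noncomputable section

namespace Pool.Agent.MP417P

open Module

namespace LTS

/-- the diagonal -/
def dg (E : Type) [AddCommGroup E] [Module ℝ E] : Submodule ℝ (E × E) :=
  LinearMap.range (LinearMap.prod (LinearMap.id : E →ₗ[ℝ] E) LinearMap.id)

theorem mem_dg {E : Type} [AddCommGroup E] [Module ℝ E] {x : E × E} :
    x ∈ dg E ↔ ∃ y, x = (y, y) := by
  constructor
  · rintro ⟨y, hy⟩
    exact ⟨y, hy.symm⟩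
  · rintro ⟨y, hy⟩
    exact ⟨y, hy.symm⟩

theorem finrank_dg (E : Type) [AddCommGroup E] [Module ℝ E] [FiniteDimensional ℝ E] :
    finrank ℝ (dg E) = finrank ℝ E :=
  LinearMap.finrank_range_of_inj fun _ _ hxy => congrArg Prod.fst hxy

theorem dg_sub {E : Type} [AddCommGroup E] [Module ℝ E] (S : LTS E) : (S.prod S).Sub (dg E) := by
  intro x hx y hy z hz
  obtain ⟨a, rfl⟩ := mem_dg.1 hx
  obtain ⟨b, rfl⟩ := mem_dg.1 hy
  obtain ⟨c, rfl⟩ := mem_dg.1 hz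
  exact mem_dg.2 ⟨S.T a b c, rfl⟩

/-- a subspace which meets no translate of the diagonal, of the right dimension -/
theorem cp_dg {E : Type} [NormedAddCommGroup E] [NormedSpace ℝ E] [FiniteDimensional ℝ E]
    {S : LTS E} {Q : Submodule ℝ (E × E)} (hd : finrank ℝ Q = finrank ℝ E)
    (h : ∀ u ∈ (S.prod S).Inn, ∀ x, u.1 (x, x) ∈ Q → x = 0) : Cp (S.prod S).Inn Q (dg E) := by
  refine ⟨fun k hk x hx y hy hxy => ?_, ?_⟩
  · obtain ⟨z, rfl⟩ := mem_dg.1 hy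
    have hz : z = 0 := h k hk z (hxy ▸ hx)
    rw [hxy, hz]
    exact map_zero k.1
  · rw [finrank_dg, hd, Module.finrank_prod]

variable {E : Type} [NormedAddCommGroup E] [NormedSpace ℝ E] [FiniteDimensional ℝ E]
  {S : LTS E} {K : Subgroup (GLE E)} {π₁ π₂ : E →ₗ[ℝ] E} {V W : Submodule ℝ E}

theorem Hyp.NN_conj (h : Hyp S K π₁ π₂ V W) {k k' : GLE E} (hk : k ∈ K) (hk' : k' ∈ K) :
    ∃ s ∈ ((S.res _ (h.dec.lk_sub h.hW)).prod (S.res _ (h.dec.lk_sub h.hW))).Inn,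
      NN π₁ π₂ V W (S.lk π₁ π₂ W) k' = im s (NN π₁ π₂ V W (S.lk π₁ π₂ W) k) := by
  have hc1 : (S.res _ (h.dec.lk_sub h.hW)).cen ⊤ = ⊥ :=
    cen_res _ _ (h.dec.lk_cen h.hW h.cen)
  have hc2 := cen_prod _ _ hc1 hc1
  exact conj_family (X := GLE E) (C := (K : Set (GLE E)))
    (N := fun k => NN π₁ π₂ V W (S.lk π₁ π₂ W) k) h.grp.cpt h.grp.conn
    (fun k hk => h.NN_sub hk) (fun k hk => h.NN_finrank hk)
    (fun k hk => nc _ hc2 (cp_dg (h.NN_finrank hk) fun u hu x hx => h.NN_diag hk hu hx))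
    h.NN_closed hk hk'

/-- if `(x, x') ∈ N(k)` for some `k ∈ K` then `x → x'` for the relation defined by `N(1)` -/
theorem Hyp.arr (h : Hyp S K π₁ π₂ V W) {k : GLE E} (hk : k ∈ K) {x x' : S.lk π₁ π₂ W}
    (hx : (x, x') ∈ NN π₁ π₂ V W (S.lk π₁ π₂ W) k) :
    Arr (S.res _ (h.dec.lk_sub h.hW)) (NN π₁ π₂ V W (S.lk π₁ π₂ W) 1) x x' := by
  obtain ⟨s, hs, he⟩ := h.NN_conj hk K.one_mem
  exact ⟨s, hs, he ▸ mem_im.2 ⟨(x, x'), hx, rfl⟩⟩

end LTS

end Pool.Agent.MP417P
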