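import Pool.Agent.Lib.MP_417c68_gt_P.E.Lk

/-!
# MP_417c68_gt, project P, module E/Nd: the subspaces `N(k)`

PROOFS (text, section 4), `U = lk`, `W₀ = W0`.
* `mem_NN`: `ξ ∈ N(k)` iff `f ξ + w ∈ k V` for some `w ∈ W₀` (`Submodule.mem_sup`, `W₀` is a
  subspace).
* `NN_sub` (N1): `T (f ξ + w) (f ξ' + w') (f ξ'' + w'') = f (T ξ ξ' ξ'') + T w w' w''` (`ff_hom`,
  `ff_com`,
  `com_T`) and `k V` is a subtriple (`im_sub`), `W₀` too.
* `NN_finrank` (N2).  `Wt = f(U × U) ⊕ W₀`, `dim Wt = 2 dim U + dim W₀` (`ff_inj`), `W = W₀ ⊔ U ≤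
  Wt` (`ff_diag`).
  The map `N(k) → k V ∩ Wt`, `ξ ↦ f ξ + w` is a linear bijection (`w` is unique: a difference lies
  in
  `k V ∩ W₀ = 0`; injective by `ff_inj`).  `dim (k V ∩ Wt) ≥ dim V + dim Wt - dim E
  = dim Wt - dim W = dim U` (`dim W = dim W₀ + dim U`) and `k V ∩ W = 0` inside `Wt` gives
  `dim (k V ∩ Wt) ≤ dim Wt - dim W = dim U`.
-/

noncomputable section

namespace Pool.Agent.MP417P

open Module

namespace LTS

variable {E : Type} [NormedAddCommGroup E] [NormedSpace ℝ E] [FiniteDimensional ℝ E]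
  {S : LTS E} {K : Subgroup (GLE E)} {π₁ π₂ : E →ₗ[ℝ] E} {V W : Submodule ℝ E}

omit [FiniteDimensional ℝ E] in
theorem mem_NN {U : Submodule ℝ E} {k : GLE E} {x : U × U} :
    x ∈ NN π₁ π₂ V W U k ↔ ∃ w ∈ W0 π₁ π₂ W, ∃ v ∈ V, ff π₁ π₂ U x + w = k.1 v := by
  rw [NN, Submodule.mem_comap, Submodule.mem_sup]
  constructor
  · rintro ⟨y, hy, z, hz, h⟩
    obtain ⟨v, hv, rfl⟩ := mem_im.1 hy
    refine ⟨-z, Submodule.neg_mem _ hz, v, hv, ?_⟩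
    rw [← h]
    abel
  · rintro ⟨w, hw, v, hv, h⟩
    refine ⟨k.1 v, mem_im.2 ⟨v, hv, rfl⟩, -w, Submodule.neg_mem _ hw, ?_⟩
    rw [← h]
    abel

theorem Hyp.NN_sub (h : Hyp S K π₁ π₂ V W) {k : GLE E} (hk : k ∈ K) :
    ((S.res _ (h.dec.lk_sub h.hW)).prod (S.res _ (h.dec.lk_sub h.hW))).Sub
      (NN π₁ π₂ V W (S.lk π₁ π₂ W) k) := by
  intro x hx y hy z hz
  obtain ⟨w, hw, v, hv, e1⟩ := mem_NN.1 hx
  obtain ⟨w', hw', v', hv', e2⟩ := mem_NN.1 hy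
  obtain ⟨w'', hw'', v'', hv'', e3⟩ := mem_NN.1 hz
  have hA := (h.grp.aut k hk).1
  refine mem_NN.2 ⟨S.T w w' w'', h.dec.W0_ideal h.hW _ hw _ (Dec.W0_le hw') _ (Dec.W0_le hw''),
    S.T v v' v'', h.hV _ hv _ hv' _ hv'', ?_⟩
  rw [hA, ← e1, ← e2, ← e3, h.dec.ff_hom (h.dec.lk_sub h.hW) x y z]
  obtain ⟨X, hX⟩ : ∃ X, X = ff π₁ π₂ (S.lk π₁ π₂ W) x := ⟨_, rfl⟩
  obtain ⟨Y, hY⟩ : ∃ Y, Y = ff π₁ π₂ (S.lk π₁ π₂ W) y := ⟨_, rfl⟩
  obtain ⟨Z, hZ⟩ : ∃ Z, Z = ff π₁ π₂ (S.lk π₁ π₂ W) z := ⟨_, rfl⟩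
  rw [← hX, ← hY, ← hZ]
  have c1 : S.T X w' = 0 := by
    rw [hX]
    exact h.dec.ff_com h.hW x hw'
  have c2 : S.T X w'' = 0 := by
    rw [hX]
    exact h.dec.ff_com h.hW x hw''
  have c3 : S.T Y w = 0 := by
    rw [hY]
    exact h.dec.ff_com h.hW y hw
  have c4 : S.T Y w'' = 0 := by
    rw [hY]
    exact h.dec.ff_com h.hW y hw''
  have c5 : S.T Z w = 0 := by
    rw [hZ]
    exact h.dec.ff_com h.hW z hw
  have c6 : S.T Z w' = 0 := by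
    rw [hZ]
    exact h.dec.ff_com h.hW z hw'
  have d1 : S.T X Y w'' = 0 := S.com_T c2 c4
  have d2 : S.T w w' Z = 0 := S.com_T (S.T_symm c5) (S.T_symm c6)
  have d3 : S.T (X + w) (Y + w') = S.T X Y + S.T w w' := by
    rw [map_add S.T, LinearMap.add_apply, map_add (S.T X), map_add (S.T w), c1, S.T_symm c3,
      add_zero, zero_add]
  rw [d3, LinearMap.add_apply, map_add (S.T X Y), map_add (S.T w w'), d1, d2, add_zero, zero_add]

theorem Hyp.NN_finrank (h : Hyp S K π₁ π₂ V W) {k : GLE E} (hk : k ∈ K) :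
    finrank ℝ (NN π₁ π₂ V W (S.lk π₁ π₂ W) k) = finrank ℝ (S.lk π₁ π₂ W) := by
  obtain ⟨U, hU⟩ : ∃ U, U = S.lk π₁ π₂ W := ⟨_, rfl⟩
  obtain ⟨P, hP⟩ : ∃ P, P = im k V := ⟨_, rfl⟩
  obtain ⟨A, hA⟩ : ∃ A, A = W0 π₁ π₂ W := ⟨_, rfl⟩
  obtain ⟨F, hF⟩ : ∃ F, F = ff π₁ π₂ U := ⟨_, rfl⟩
  obtain ⟨R, hR⟩ : ∃ R, R = LinearMap.range F := ⟨_, rfl⟩
  have hinj0 : ∀ x, F x ∈ A → x = 0 := by
    subst hF hU hA
    exact fun x hx => h.dec.ff_inj hx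
  have hinj : LinearMap.ker F = ⊥ := by
    rw [Submodule.eq_bot_iff]
    intro x hx
    refine hinj0 x ?_
    rw [LinearMap.mem_ker.1 hx]
    exact A.zero_mem
  have hdR : finrank ℝ R = 2 * finrank ℝ U := by
    rw [hR, LinearMap.finrank_range_of_inj (LinearMap.ker_eq_bot.1 hinj), finrank_prod]
    ring
  have hRA : R ⊓ A = ⊥ := by
    rw [Submodule.eq_bot_iff]
    rintro x ⟨h1, h2⟩
    rw [hR] at h1
    obtain ⟨y, rfl⟩ := h1
    rw [hinj0 y h2, map_zero]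
  have hAU : finrank ℝ A + finrank ℝ U = finrank ℝ W := by
    subst hU hA
    exact h.dec.finrank_lk
  have hWle : W ≤ R ⊔ A := by
    have h1 : A ⊔ U = W := by
      subst hU hA
      exact h.dec.W_eq
    rw [← h1]
    refine sup_le le_sup_right (le_trans ?_ le_sup_left)
    intro x hx
    rw [hR]
    refine ⟨(⟨x, hx⟩, ⟨x, hx⟩), ?_⟩
    rw [hF]
    exact h.dec.ff_diag ⟨x, hx⟩
  have hPW : P ⊓ W = ⊥ := by
    rw [Submodule.eq_bot_iff]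
    rintro x ⟨h1, h2⟩
    rw [hP] at h1
    obtain ⟨v, hv, rfl⟩ := mem_im.1 h1
    have h3 : v = 0 := by
      refine h.cp.disj k⁻¹ (K.inv_mem hk) v hv _ h2 ?_
      have h4 : (k⁻¹ * k).1 v = v := by
        rw [inv_mul_cancel]
        rfl
      exact h4.symm
    rw [h3, map_zero]
  have hPA : P ⊓ A = ⊥ := by
    rw [eq_bot_iff, ← hPW]
    refine inf_le_inf le_rfl ?_
    rw [hA]
    exact Dec.W0_le
  have hdP : finrank ℝ P = finrank ℝ V := by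
    rw [hP]
    exact finrank_im k V
  have hdE := h.cp.dim
  have s1 := Submodule.finrank_sup_add_finrank_inf_eq P W
  rw [hPW, finrank_bot, add_zero, hdP, hdE] at s1
  have htop : P ⊔ W = ⊤ := Submodule.eq_top_of_finrank_eq s1
  have htop2 : (P ⊔ A) ⊔ (R ⊔ A) = ⊤ := by
    rw [eq_top_iff, ← htop]
    exact sup_le (le_sup_left.trans le_sup_left) (hWle.trans le_sup_right)
  have s2 := Submodule.finrank_sup_add_finrank_inf_eq (P ⊔ A) (R ⊔ A)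
  rw [htop2, finrank_top] at s2
  have s3 := Submodule.finrank_sup_add_finrank_inf_eq P A
  rw [hPA, finrank_bot, add_zero] at s3
  have s4 := Submodule.finrank_sup_add_finrank_inf_eq R A
  rw [hRA, finrank_bot, add_zero] at s4
  have hmod : (P ⊔ A) ⊓ (R ⊔ A) = (R ⊓ (P ⊔ A)) ⊔ A := by
    rw [inf_comm]
    exact (sup_comm R A ▸ sup_inf_assoc_of_le R (le_sup_right : A ≤ P ⊔ A)).trans
      (sup_comm _ _)
  have s5 := Submodule.finrank_sup_add_finrank_inf_eq (R ⊓ (P ⊔ A)) A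
  have hbot : R ⊓ (P ⊔ A) ⊓ A = ⊥ := by
    rw [eq_bot_iff, ← hRA]
    exact inf_le_inf inf_le_left le_rfl
  rw [hbot, finrank_bot, add_zero, ← hmod] at s5
  have s6 : finrank ℝ (NN π₁ π₂ V W U k) = finrank ℝ (R ⊓ (P ⊔ A) : Submodule ℝ E) := by
    have h1 : (NN π₁ π₂ V W U k).map F = R ⊓ (P ⊔ A) := by
      rw [NN, ← hF, ← hP, ← hA, Submodule.map_comap_eq, ← hR]
    rw [← h1]
    exact (LinearEquiv.finrank_eq (Submodule.equivMapOfInjective F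
      (LinearMap.ker_eq_bot.1 hinj) _))
  rw [← hU, s6]
  omega

end LTS

end Pool.Agent.MP417P
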