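import Pool.Agent.Lib.MP_417c68_gt_P.E.Nd

/-!
# MP_417c68_gt, project P, module E/Nt: `N(k)` and the diagonal; the graph of `k ↦ N(k)` is closed

PROOFS.
* `NN_diag` (N3).  `s ∈ Inn (U × U)`, `s (x, x) ∈ N(k)`: `f (s (x, x)) + w = k v`.  By `inn_ext`
  for `f`
  (`ff_hom`) there is `m ∈ Inn E ≤ K` with `m (f ξ) = f (s ξ)` and `m w = w` (`ff_com`, `com_T`). 
  So
  `m (x + w) = k v` (`ff_diag`), `v = k⁻¹ m (x + w)` with `v ∈ V`, `x + w ∈ W`, so `v = 0` (`Cp`),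
  `x = -w`,
  and `x ∈ U ∩ W₀ = 0`.
* `NN_closed`: the set of all `(k, ξ)` with `k ∈ K` and `ξ ∈ N(k)` is closed.  There is `c > 0` with
  `‖k v - w‖ ≥ c (‖v‖ + ‖w‖)` for all `k ∈ K`, `v ∈ V`, `w ∈ W₀` (compactness of `K` and of the
  unit sphere,
  `k V ∩ W₀ = 0`).  If `(k_n, ξ_n) → (k, ξ)`, `f ξ_n = k_n v_n - w_n`, then `v_n`, `w_n` are
  bounded; pass to a
  convergent subsequence.  (Or: the map `(k, v, w) ↦ (k, k v - w)` on `K × V × W₀` is a closed map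
  since
  it is proper; or use filters/ultrafilters, since `GL(E)` is metrizable as a subspace of
  `(E →L E) × (E →L E)ᵐᵒᵖ` sequences also suffice.)
-/

noncomputable section

namespace Pool.Agent.MP417P

open Module

namespace LTS

variable {E : Type} [NormedAddCommGroup E] [NormedSpace ℝ E] [FiniteDimensional ℝ E]
  {S : LTS E} {K : Subgroup (GLE E)} {π₁ π₂ : E →ₗ[ℝ] E} {V W : Submodule ℝ E}

private theorem nt_bound {W' : Submodule ℝ E} (hK : IsCompact (K : Set (GLE E)))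
    (h : ∀ k ∈ K, ∀ v ∈ V, ∀ w ∈ W', k.1 v = w → v = 0 ∧ w = 0) :
    ∃ c : ℝ, 0 < c ∧ ∀ k ∈ K, ∀ q : E × E, q.1 ∈ V → q.2 ∈ W' → c * ‖q‖ ≤ ‖k.1 q.1 - q.2‖ := by
  have hVc : IsClosed (V : Set E) := V.closed_of_finiteDimensional
  have hWc : IsClosed (W' : Set E) := W'.closed_of_finiteDimensional
  have hS : IsCompact {q : E × E | q ∈ Metric.sphere (0 : E × E) 1 ∧
      (q.1 ∈ (V : Set E) ∧ q.2 ∈ (W' : Set E))} :=
    (isCompact_sphere (0 : E × E) 1).inter_right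
      ((hVc.preimage continuous_fst).inter (hWc.preimage continuous_snd))
  have hF : Continuous fun z : GLE E × (E × E) => ‖z.1.1 z.2.1 - z.2.2‖ := by
    refine Continuous.norm (Continuous.sub ?_ ?_)
    · exact (Units.continuous_val.comp continuous_fst).clm_apply
        (continuous_fst.comp continuous_snd)
    · exact continuous_snd.comp continuous_snd
  have hT := hK.prod hS
  have hex : ∃ c : ℝ, 0 < c ∧ ∀ k ∈ K, ∀ q : E × E, q.1 ∈ V → q.2 ∈ W' → ‖q‖ = 1 →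
      c ≤ ‖k.1 q.1 - q.2‖ := by
    rcases (Set.eq_empty_or_nonempty ((K : Set (GLE E)) ×ˢ {q : E × E |
      q ∈ Metric.sphere (0 : E × E) 1 ∧ (q.1 ∈ (V : Set E) ∧ q.2 ∈ (W' : Set E))})) with he | hne
    · refine ⟨1, one_pos, fun k hk q h1 h2 h3 => ?_⟩
      exfalso
      have h4 : ((k, q) : GLE E × (E × E)) ∈ ((K : Set (GLE E)) ×ˢ {q : E × E |
          q ∈ Metric.sphere (0 : E × E) 1 ∧ (q.1 ∈ (V : Set E) ∧ q.2 ∈ (W' : Set E))}) :=
        ⟨hk, by simpa using h3, h1, h2⟩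
      rw [he] at h4
      exact h4
    · obtain ⟨z, hz, hmin⟩ := hT.exists_isMinOn hne hF.continuousOn
      refine ⟨‖z.1.1 z.2.1 - z.2.2‖, ?_, fun k hk q h1 h2 h3 => ?_⟩
      · rw [norm_pos_iff, sub_ne_zero]
        intro h0
        obtain ⟨h1, h2⟩ := h z.1 hz.1 z.2.1 hz.2.2.1 z.2.2 hz.2.2.2 h0
        have h3 : z.2 = 0 := Prod.ext h1 h2
        have h4 : z.2 ∈ Metric.sphere (0 : E × E) 1 := hz.2.1
        rw [h3] at h4
        simp at h4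
      · exact hmin (show ((k, q) : GLE E × (E × E)) ∈ _ from ⟨hk, by simpa using h3, h1, h2⟩)
  obtain ⟨c, hc, hb⟩ := hex
  refine ⟨c, hc, fun k hk q h1 h2 => ?_⟩
  by_cases hq : q = 0
  · rw [hq]
    simp
  · have hn : 0 < ‖q‖ := norm_pos_iff.2 hq
    have h3 := hb k hk (‖q‖⁻¹ • q) (V.smul_mem _ h1) (W'.smul_mem _ h2) (by
      rw [norm_smul, norm_inv, norm_norm, inv_mul_cancel₀ hn.ne'])
    have h4 : k.1 (‖q‖⁻¹ • q).1 - (‖q‖⁻¹ • q).2 = ‖q‖⁻¹ • (k.1 q.1 - q.2) := by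
      rw [Prod.smul_fst, Prod.smul_snd, map_smul, smul_sub]
    rw [h4, norm_smul, norm_inv, norm_norm] at h3
    calc c * ‖q‖ ≤ (‖q‖⁻¹ * ‖k.1 q.1 - q.2‖) * ‖q‖ := mul_le_mul_of_nonneg_right h3 hn.le
      _ = ‖k.1 q.1 - q.2‖ := by
        field_simp

theorem Hyp.NN_diag (h : Hyp S K π₁ π₂ V W) {k : GLE E} (hk : k ∈ K)
    {s : GLE (S.lk π₁ π₂ W × S.lk π₁ π₂ W)}
    (hs : s ∈ ((S.res _ (h.dec.lk_sub h.hW)).prod (S.res _ (h.dec.lk_sub h.hW))).Inn)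
    {x : S.lk π₁ π₂ W} (hx : s.1 (x, x) ∈ NN π₁ π₂ V W (S.lk π₁ π₂ W) k) : x = 0 := by
  obtain ⟨w, hw, v, hv, hx⟩ := mem_NN.1 hx
  obtain ⟨m, hm, hm1, hm2⟩ := inn_ext (h.dec.ff_hom (h.dec.lk_sub h.hW)) hs
  have hmK : m ∈ K := h.grp.inn hm
  have hmw : m.1 w = w := by
    refine hm2 w fun ξ η => ?_
    exact S.com_T (h.dec.ff_com h.hW ξ hw) (h.dec.ff_com h.hW η hw)
  have h1 : m.1 (x.1 + w) = k.1 v := by
    rw [map_add, hmw, ← hx, ← hm1, h.dec.ff_diag]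
  have hxW : x.1 + w ∈ W := W.add_mem x.2.1 (Dec.W0_le hw)
  have h2 : v = (k⁻¹ * m).1 (x.1 + w) := by
    have h3 : (k⁻¹ * m).1 (x.1 + w) = k⁻¹.1 (m.1 (x.1 + w)) := rfl
    have h4 : k⁻¹.1 (k.1 v) = (k⁻¹ * k).1 v := rfl
    rw [h3, h1, h4, inv_mul_cancel]
    rfl
  have h3 : v = 0 := h.cp.disj _ (K.mul_mem (K.inv_mem hk) hmK) v hv _ hxW h2
  have h4 : x.1 + w = 0 := by
    have h5 : (m⁻¹ * m).1 (x.1 + w) = m⁻¹.1 (m.1 (x.1 + w)) := rfl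
    rw [inv_mul_cancel, h1, h3, map_zero, map_zero] at h5
    exact h5
  have h5 : x.1 = -w := eq_neg_of_add_eq_zero_left h4
  have h6 : S.ip x.1 x.1 = 0 := by
    refine x.2.2 x.1 ?_
    rw [h5]
    exact (W0 π₁ π₂ W).neg_mem hw
  exact Subtype.ext (S.ip_zero h6)

theorem Hyp.NN_closed (h : Hyp S K π₁ π₂ V W) :
    IsClosed {p : GLE E × (S.lk π₁ π₂ W × S.lk π₁ π₂ W) |
      p.1 ∈ (K : Set (GLE E)) ∧ p.2 ∈ NN π₁ π₂ V W (S.lk π₁ π₂ W) p.1} := by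
  have hVc : IsClosed (V : Set E) := V.closed_of_finiteDimensional
  have hWc : IsClosed (W0 π₁ π₂ W : Set E) := (W0 π₁ π₂ W).closed_of_finiteDimensional
  have hKc : IsClosed (K : Set (GLE E)) := h.grp.cpt.isClosed
  have hf : Continuous (ff π₁ π₂ (S.lk π₁ π₂ W)) :=
    LinearMap.continuous_of_finiteDimensional _
  obtain ⟨c, hc, hb⟩ := nt_bound (V := V) (W' := W0 π₁ π₂ W) h.grp.cpt (by
    intro k hk v hv w hw hkw
    have h1 : v = (k⁻¹).1 w := by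
      have h4 : k⁻¹.1 (k.1 v) = (k⁻¹ * k).1 v := rfl
      rw [← hkw, h4, inv_mul_cancel]
      rfl
    have h2 : v = 0 := h.cp.disj _ (K.inv_mem hk) v hv w (Dec.W0_le hw) h1
    refine ⟨h2, ?_⟩
    rw [← hkw, h2, map_zero])
  refine isClosed_of_closure_subset fun p hp => ?_
  obtain ⟨R, hR⟩ : ∃ R : ℝ, R = (‖ff π₁ π₂ (S.lk π₁ π₂ W) p.2‖ + 1) / c := ⟨_, rfl⟩
  have hU : IsOpen {z : GLE E × (S.lk π₁ π₂ W × S.lk π₁ π₂ W) |
      ‖ff π₁ π₂ (S.lk π₁ π₂ W) z.2‖ < ‖ff π₁ π₂ (S.lk π₁ π₂ W) p.2‖ + 1} :=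
    isOpen_lt (hf.comp continuous_snd).norm continuous_const
  have h1 := hU.inter_closure ⟨(lt_add_one _ : ‖ff π₁ π₂ (S.lk π₁ π₂ W) p.2‖ < _), hp⟩
  -- the compact set
  have hY : IsCompact {q : E × E | q ∈ Metric.closedBall (0 : E × E) R ∧
      (q.1 ∈ (V : Set E) ∧ q.2 ∈ (W0 π₁ π₂ W : Set E))} :=
    (isCompact_closedBall (0 : E × E) R).inter_right
      ((hVc.preimage continuous_fst).inter (hWc.preimage continuous_snd))
  have hYc : CompactSpace {q : E × E | q ∈ Metric.closedBall (0 : E × E) R ∧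
      (q.1 ∈ (V : Set E) ∧ q.2 ∈ (W0 π₁ π₂ W : Set E))} := isCompact_iff_compactSpace.1 hY
  have hZ : IsClosed {z : (GLE E × (S.lk π₁ π₂ W × S.lk π₁ π₂ W)) × {q : E × E |
      q ∈ Metric.closedBall (0 : E × E) R ∧ (q.1 ∈ (V : Set E) ∧ q.2 ∈ (W0 π₁ π₂ W : Set E))} |
      z.1.1 ∈ (K : Set (GLE E)) ∧
        ff π₁ π₂ (S.lk π₁ π₂ W) z.1.2 = z.1.1.1 z.2.1.1 - z.2.1.2} := by
    refine (hKc.preimage (continuous_fst.comp continuous_fst)).inter (isClosed_eq ?_ ?_)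
    · exact hf.comp (continuous_snd.comp continuous_fst)
    · refine Continuous.sub ?_ ?_
      · exact (Units.continuous_val.comp (continuous_fst.comp continuous_fst)).clm_apply
          (continuous_fst.comp (continuous_subtype_val.comp continuous_snd))
      · exact continuous_snd.comp (continuous_subtype_val.comp continuous_snd)
  have h3 := isClosedMap_fst_of_compactSpace _ hZ
  have h4 := closure_minimal ?_ h3 h1
  · obtain ⟨z, ⟨hz1, hz2⟩, rfl⟩ := h4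
    refine ⟨hz1, mem_NN.2 ⟨z.2.1.2, z.2.2.2.2, z.2.1.1, z.2.2.2.1, ?_⟩⟩
    rw [hz2, sub_add_cancel]
  · rintro z ⟨hz1, hz2, hz3⟩
    obtain ⟨w, hw, v, hv, h5⟩ := mem_NN.1 hz3
    have h6 : ff π₁ π₂ (S.lk π₁ π₂ W) z.2 = z.1.1 v - w := by
      rw [← h5, add_sub_cancel_right]
    have h7 := hb z.1 hz2 (v, w) hv hw
    have h8 : ‖((v, w) : E × E)‖ ≤ R := by
      rw [hR, le_div_iff₀ hc, mul_comm]
      refine h7.trans ?_
      change ‖z.1.1 v - w‖ ≤ _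
      rw [← h6]
      exact le_of_lt hz1
    exact ⟨(z, ⟨(v, w), by simpa using h8, hv, hw⟩), ⟨hz2, h6⟩, rfl⟩

end LTS

end Pool.Agent.MP417P
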